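import Mathlib
import Pool.Agent.N119.PS.Stm3

set_option autoImplicit false

/-!
# Project PSC3, leaf MSR: a measure on the boundary with given masses of cylinders (helper454)

Riesz representation of an ultrafilter limit of the discrete functionals
`f ↦ ∑ u ∈ sph N n, W u * f (ξ u)`, `ξ u` an end through `u`.
-/

namespace Pool.Agent.N454.PSC3

open Pool.Agent.H472R3 Pool.Agent.H67R3.FSR Pool.Agent.H67R4.SR MeasureTheory Topology Filter
open Pool.Agent.N119.PS
open scoped ENNReal NNReal

variable {N : ℕ}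

theorem toWord_pow {g : FreeGroup (Fin N)} {b : Lt N} (h : g.toWord.getLast? ≠ some (inv' b)) :
    ∀ n : ℕ, (g * lt b ^ n).toWord = g.toWord ++ List.replicate n b := by
  intro n
  induction n with
  | zero => simp
  | succ n ih =>
    have h1 : (g * lt b ^ n).toWord.getLast? ≠ some (inv' b) := by
      rw [ih]
      rcases Nat.eq_zero_or_pos n with rfl | hn
      · simpa using h
      · rw [List.getLast?_append, List.getLast?_replicate, if_neg (by omega)]
        simp only [Option.some_or]
        intro h2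
        exact inv'_ne b (Option.some.inj h2).symm
    rw [pow_succ, ← mul_assoc, toWord_mul_lt h1, ih, List.append_assoc, List.replicate_succ']

/-- an end through a vertex -/
theorem exists_end [Nonempty (Lt N)] (g : FreeGroup (Fin N)) : ∃ ξ : Bd N, ray ξ g.norm = g := by
  obtain ⟨b, hb⟩ : ∃ b : Lt N, g.toWord.getLast? ≠ some (inv' b) := by
    rcases h : g.toWord.getLast? with _ | c
    · exact ⟨Classical.arbitrary _, by simp⟩
    · refine ⟨c, fun h2 => inv'_ne c (Option.some.inj h2).symm⟩
  have hw := toWord_pow hb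
  have hnorm : ∀ n, (g * lt b ^ n).norm = g.norm + n := by
    intro n
    unfold FreeGroup.norm
    rw [hw, List.length_append, List.length_replicate]
  obtain ⟨ξ, hξ⟩ := exists_conv (u := fun n => g * lt b ^ n) (B := 1)
    (fun n => by
      have : (g * lt b ^ n)⁻¹ * (g * lt b ^ (n + 1)) = lt b := by
        rw [pow_succ]; group
      rw [this, norm_lt])
    (by
      simp only [hnorm]
      exact tendsto_atTop_mono (fun n => Nat.le_add_left n _) tendsto_id)
  refine ⟨ξ, ?_⟩
  obtain ⟨n, s, hs⟩ := (hξ.pfx g.norm).exists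
  rw [hw] at hs
  have h1 : g.toWord.length = (ray ξ g.norm).toWord.length := (ray_norm ξ g.norm).symm
  exact FreeGroup.toWord_injective (List.append_inj hs h1).1.symm

/-- the word of a vertex of the ray -/
theorem ray_take {ξ : Bd N} {e : FreeGroup (Fin N)} (h : ray ξ e.norm = e) {m : ℕ}
    (hm : m ≤ e.norm) : (ray ξ m).toWord = e.toWord.take m := by
  obtain ⟨j, hj⟩ := Nat.exists_eq_add_of_le hm
  obtain ⟨t, ht⟩ := ray_pfx ξ m j
  rw [← hj, h] at ht
  have h1 : (ray ξ m).toWord.length = m := ray_norm ξ m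
  rw [ht, List.take_left' h1]

theorem ini_toWord (e : FreeGroup (Fin N)) : (ini e).toWord = e.toWord.dropLast := by
  unfold ini
  rw [FreeGroup.toWord_mk]
  apply FreeGroup.IsReduced.reduce_eq
  have h : FreeGroup.IsReduced e.toWord := FreeGroup.isReduced_toWord
  rcases List.eq_nil_or_concat e.toWord with h0 | ⟨s, b, hs⟩
  · rw [h0] at h ⊢; exact h
  · rw [List.concat_eq_append] at hs
    rw [hs] at h ⊢
    rw [List.dropLast_concat]
    exact (List.isChain_append.mp h).1

theorem ini_norm (e : FreeGroup (Fin N)) : (ini e).norm = e.norm - 1 := by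
  unfold FreeGroup.norm
  rw [ini_toWord, List.length_dropLast]

/-- summation over a sphere -/
theorem sum_step {k : ℕ} {W : FreeGroup (Fin N) → ℝ}
    (hW : ∀ u, k ≤ u.norm → W u = ∑ e ∈ (sph N (u.norm + 1)).filter (fun e => ini e = u), W e)
    (φ : FreeGroup (Fin N) → ℝ) {n : ℕ} (hn : k ≤ n) :
    ∑ e ∈ sph N (n + 1), W e * φ (ini e) = ∑ u ∈ sph N n, W u * φ u := by
  have hmap : ∀ e ∈ sph N (n + 1), ini e ∈ sph N n := by
    intro e he
    rw [mem_sph] at he ⊢
    rw [ini_norm, he]; omega
  rw [← Finset.sum_fiberwise_of_maps_to hmap]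
  refine Finset.sum_congr rfl fun u hu => ?_
  rw [mem_sph] at hu
  rw [hW u (by omega), Finset.sum_mul, hu]
  refine Finset.sum_congr rfl fun e he => ?_
  rw [(Finset.mem_filter.mp he).2]

theorem sum_total {k : ℕ} {W : FreeGroup (Fin N) → ℝ}
    (hW : ∀ u, k ≤ u.norm → W u = ∑ e ∈ (sph N (u.norm + 1)).filter (fun e => ini e = u), W e)
    (j : ℕ) : ∑ e ∈ sph N (k + j), W e = ∑ u ∈ sph N k, W u := by
  induction j with
  | zero => rfl
  | succ j ih =>
    have := sum_step hW (fun _ => 1) (n := k + j) (by omega)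
    simp only [mul_one] at this
    rw [← ih, ← this, add_assoc]

theorem sum_cyl {k : ℕ} {W : FreeGroup (Fin N) → ℝ}
    (hW : ∀ u, k ≤ u.norm → W u = ∑ e ∈ (sph N (u.norm + 1)).filter (fun e => ini e = u), W e)
    (E : FreeGroup (Fin N) → Bd N) (hE : ∀ g, ray (E g) g.norm = g)
    (u : FreeGroup (Fin N)) (hu : k ≤ u.norm) (j : ℕ) :
    ∑ e ∈ sph N (u.norm + j), W e * (if ray (E e) u.norm = u then 1 else 0) = W u := by
  induction j with
  | zero =>
    rw [add_zero, Finset.sum_eq_single u]
    · rw [hE u, if_pos rfl, mul_one]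
    · intro e he hne
      rw [mem_sph] at he
      rw [← he, hE e, if_neg hne, mul_zero]
    · intro h
      exact absurd (mem_sph.mpr rfl) h
  | succ j ih =>
    rw [← ih, ← sum_step hW _ (by omega : k ≤ u.norm + j), add_assoc]
    refine Finset.sum_congr rfl fun e he => ?_
    rw [mem_sph] at he
    have h1 : ray (E e) u.norm = ray (E (ini e)) u.norm := by
      apply FreeGroup.toWord_injective
      rw [ray_take (hE e) (by omega), ray_take (hE (ini e)) (by rw [ini_norm]; omega), ini_toWord,
        List.dropLast_eq_take, List.take_take]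
      congr 1
      have : e.toWord.length = e.norm := rfl
      omega
    rw [h1]

/-- the discrete functionals -/
noncomputable def Ln (W : FreeGroup (Fin N) → ℝ) (E : FreeGroup (Fin N) → Bd N) (n : ℕ)
    (f : Bd N → ℝ) : ℝ := ∑ e ∈ sph N n, W e * f (E e)

theorem exists_lim {k : ℕ} {W : FreeGroup (Fin N) → ℝ} (h0 : ∀ u, 0 ≤ W u)
    (hW : ∀ u, k ≤ u.norm → W u = ∑ e ∈ (sph N (u.norm + 1)).filter (fun e => ini e = u), W e)
    (E : FreeGroup (Fin N) → Bd N) (f : Bd N → ℝ) (hf : Continuous f) :
    ∃ L : ℝ, Tendsto (fun n => Ln W E n f) (hyperfilter ℕ) (𝓝 L) := by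
  obtain ⟨C, hC⟩ := (isCompact_univ (X := Bd N)).exists_bound_of_continuousOn hf.continuousOn
  set M := ∑ u ∈ sph N k, W u with hM
  have hb : ∀ n, k ≤ n → Ln W E n f ∈ Set.Icc (-(M * C)) (M * C) := by
    intro n hn
    obtain ⟨j, rfl⟩ := Nat.exists_eq_add_of_le hn
    rw [Set.mem_Icc, ← abs_le]
    unfold Ln
    refine (Finset.abs_sum_le_sum_abs _ _).trans ?_
    rw [hM, ← sum_total hW j, Finset.sum_mul]
    refine Finset.sum_le_sum fun e _ => ?_
    rw [abs_mul, abs_of_nonneg (h0 e)]
    exact mul_le_mul_of_nonneg_left (hC _ (Set.mem_univ _)) (h0 e)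
  have hle : ((hyperfilter ℕ).map (fun n => Ln W E n f) : Ultrafilter ℝ) ≤
      𝓟 (Set.Icc (-(M * C)) (M * C)) := by
    rw [le_principal_iff, Ultrafilter.mem_coe, Ultrafilter.mem_map]
    have : ∀ᶠ n in (hyperfilter ℕ : Filter ℕ), k ≤ n :=
      (Nat.hyperfilter_le_atTop) (eventually_ge_atTop k)
    filter_upwards [this] with n hn using hb n hn
  obtain ⟨L, _, hL⟩ := isCompact_Icc.ultrafilter_le_nhds _ hle
  exact ⟨L, hL⟩

theorem t : S_MSR := by
  intro N k W h0 hW
  rcases isEmpty_or_nonempty (Lt N) with hem | hne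
  · have hnorm : ∀ e : FreeGroup (Fin N), e.norm = 0 := by
      intro e
      unfold FreeGroup.norm
      rcases h : e.toWord with _ | ⟨a, _⟩
      · rfl
      · exact hem.elim a
    have hemp : IsEmpty (Bd N) := ⟨fun ξ => hem.elim (ξ.1 1)⟩
    refine ⟨0, inferInstance, fun u hu => ?_⟩
    have : W u = 0 := by
      rw [hW u hu]
      apply Finset.sum_eq_zero
      intro e he
      have := mem_sph.mp (Finset.mem_filter.mp he).1
      rw [hnorm e] at this
      omega
    rw [this, ENNReal.ofReal_zero]
    rfl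
  choose E hE using exists_end (N := N)
  have hlim := fun f : CompactlySupportedContinuousMap (Bd N) ℝ =>
    exists_lim h0 hW E (fun ξ => f ξ) f.continuous
  choose L hL using hlim
  let Λ₀ : CompactlySupportedContinuousMap (Bd N) ℝ →ₗ[ℝ] ℝ :=
    { toFun := L
      map_add' := by
        intro f g
        refine tendsto_nhds_unique (hL (f + g)) (((hL f).add (hL g)).congr fun n => ?_)
        unfold Ln
        rw [← Finset.sum_add_distrib]
        refine Finset.sum_congr rfl fun e _ => ?_
        exact (mul_add _ _ _).symm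
      map_smul' := by
        intro c f
        refine tendsto_nhds_unique (hL (c • f)) (((hL f).const_mul c).congr fun n => ?_)
        unfold Ln
        rw [Finset.mul_sum]
        refine Finset.sum_congr rfl fun e _ => ?_
        exact mul_left_comm c (W e) (f (E e)) }
  let Λ : CompactlySupportedContinuousMap (Bd N) ℝ →ₚ[ℝ] ℝ := PositiveLinearMap.mk₀ Λ₀ (by
    intro f hf
    refine ge_of_tendsto (hL f) (Eventually.of_forall fun n => ?_)
    unfold Ln
    exact Finset.sum_nonneg fun e _ => mul_nonneg (h0 e) (hf (E e)))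
  have hΛ : ∀ f, Λ f = L f := fun f => rfl
  have hcyl : ∀ u : FreeGroup (Fin N),
      IsLocallyConstant fun ξ : Bd N => if ray ξ u.norm = u then (1 : ℝ) else 0 := by
    intro u
    rw [IsLocallyConstant.iff_eventually_eq]
    intro ξ
    filter_upwards [ray_locally ξ u.norm] with ζ hζ
    rw [hζ]
  refine ⟨RealRMK.rieszMeasure Λ, ⟨?_⟩, fun u hu => ?_⟩
  · let f : CompactlySupportedContinuousMap (Bd N) ℝ :=
      ⟨⟨fun _ => 1, continuous_const⟩, HasCompactSupport.of_compactSpace _⟩
    have := RealRMK.rieszMeasure_le_of_eq_one Λ (f := f) (fun _ => zero_le_one)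
      (K := Set.univ) isCompact_univ (fun _ _ => rfl)
    exact lt_of_le_of_lt this ENNReal.ofReal_lt_top
  · let f : CompactlySupportedContinuousMap (Bd N) ℝ :=
      ⟨⟨fun ξ => if ray ξ u.norm = u then (1 : ℝ) else 0, (hcyl u).continuous⟩,
        HasCompactSupport.of_compactSpace _⟩
    have hfv : ∀ ξ, f ξ = if ray ξ u.norm = u then (1 : ℝ) else 0 := fun ξ => rfl
    have hset : {ξ : Bd N | ray ξ u.norm = u} = (fun ξ => f ξ) ⁻¹' {1} := by
      ext ξ
      simp only [Set.mem_ofPred_eq, Set.mem_preimage, Set.mem_singleton_iff, hfv]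
      split_ifs with h <;> simp [h]
    have hcl : IsClosed {ξ : Bd N | ray ξ u.norm = u} := by
      rw [hset]
      exact isClosed_singleton.preimage f.continuous
    have hval : Λ f = W u := by
      rw [hΛ]
      refine tendsto_nhds_unique (hL f) (tendsto_const_nhds.congr' ?_)
      have : ∀ᶠ n in (hyperfilter ℕ : Filter ℕ), u.norm ≤ n :=
        (Nat.hyperfilter_le_atTop) (eventually_ge_atTop u.norm)
      filter_upwards [this] with n hn
      obtain ⟨j, rfl⟩ := Nat.exists_eq_add_of_le hn
      exact (sum_cyl hW E hE u hu j).symm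
    rw [← hval]
    refine le_antisymm ?_ ?_
    · refine RealRMK.rieszMeasure_le_of_eq_one Λ (f := f) (fun ξ => ?_) hcl.isCompact
        (fun ξ hξ => ?_)
      · rw [hfv]; split_ifs <;> simp
      · rw [hfv]
        exact if_pos hξ
    · refine RealRMK.le_rieszMeasure_tsupport_subset Λ (f := f) (fun ξ => ?_) ?_
      · rw [hfv]; split_ifs <;> simp
      · apply closure_minimal _ hcl
        intro ξ hξ
        by_contra hn
        apply hξ
        rw [hfv]
        exact if_neg hn

end Pool.Agent.N454.PSC3
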